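import Mathlib
import Pool.Agent.D0H33.FC.C38

set_option autoImplicit false

open Set Metric Filter Topology

namespace Pool.Agent.Results.MP_155f9b_an.CylGraph

/-- The distance from `x` to the `i`-th coordinate axis (`i = 0` is the `x_1`-axis, `i = 2` is the
`x_3`-axis). -/
noncomputable def axDist (i : Fin 3) (x : EuclideanSpace ℝ (Fin 3)) : ℝ :=
  ‖x - x i • EuclideanSpace.single i (1 : ℝ)‖

/-- The positive phase `{x ∈ Ω : u x > 0}`. -/
def Pos (Ω : Set (EuclideanSpace ℝ (Fin 3))) (u : EuclideanSpace ℝ (Fin 3) → ℝ) :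
    Set (EuclideanSpace ℝ (Fin 3)) := {x | x ∈ Ω ∧ 0 < u x}

/-- The zero phase `{x ∈ Ω : u x = 0}`. -/
def Zer (Ω : Set (EuclideanSpace ℝ (Fin 3))) (u : EuclideanSpace ℝ (Fin 3) → ℝ) :
    Set (EuclideanSpace ℝ (Fin 3)) := {x | x ∈ Ω ∧ u x = 0}

/-- The free boundary: the part in `Ω` of the boundary of the positive phase. -/
def Free (Ω : Set (EuclideanSpace ℝ (Fin 3))) (u : EuclideanSpace ℝ (Fin 3) → ℝ) :
    Set (EuclideanSpace ℝ (Fin 3)) := Ω ∩ frontier (Pos Ω u)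

/-- Classical one-phase solutions on `Ω`: `u` is continuous and nonnegative on `Ω`, harmonic at the
interior points of `Ω` where it is positive, and near each free boundary point `p` in the interior
of `Ω` there is a function `G` of class `C^1` with `G p = 0` and `|∇G(p)| = 1` such that near `p`
the positive phase is `{G > 0}` and `u = G` there. In particular the free boundary is a `C^1`
surface, `u` is `C^1` up to it from the positive side, and `|∇u| = 1` on it (smooth solutions are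
a special case). -/
structure Classical (Ω : Set (EuclideanSpace ℝ (Fin 3))) (u : EuclideanSpace ℝ (Fin 3) → ℝ) :
    Prop where
  cont : ContinuousOn u Ω
  nonneg : ∀ x ∈ Ω, 0 ≤ u x
  harm : InnerProductSpace.HarmonicOnNhd u (Pos Ω u ∩ interior Ω)
  bdry : ∀ p ∈ Free Ω u ∩ interior Ω, ∃ G : EuclideanSpace ℝ (Fin 3) → ℝ,
    ContDiffAt ℝ 1 G p ∧ G p = 0 ∧ ‖fderiv ℝ G p‖ = 1 ∧
      ∀ᶠ x in 𝓝 p, (0 < u x ↔ 0 < G x) ∧ (0 < u x → u x = G x)

/-- Question Q1 is answered in the affirmative, for the cylinders around the `x_3`-axis (`i = 2`,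
an axis contained in the flat plane `x_1 = 0`; this is the intended problem), and also for the
cylinders around the `x_1`-axis (`i = 0`, the axis written in the problem file). -/
theorem result : ∃ δ₀ ε C : ℝ, 0 < δ₀ ∧ δ₀ < 1 ∧ 0 < ε ∧ 0 < C ∧
    ∀ (i : Fin 3) (δ : ℝ) (Ω : Set (EuclideanSpace ℝ (Fin 3))) (u : EuclideanSpace ℝ (Fin 3) → ℝ),
      (i = 2 ∨ i = 0) → 0 < δ → δ ≤ δ₀ →
      {x | δ < axDist i x ∧ ‖x‖ < 1} ⊆ Ω → Ω ⊆ {x | δ ≤ axDist i x ∧ ‖x‖ < 1} →
      Classical Ω u → ContractibleSpace (Pos Ω u) → ContractibleSpace (Zer Ω u) →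
      {x | x ∈ Ω ∧ ε < x 0} ⊆ Pos Ω u → {x | x ∈ Ω ∧ x 0 < -ε} ⊆ Zer Ω u →
      ∃ g : EuclideanSpace ℝ (Fin 2) → ℝ, ContDiff ℝ 1 g ∧ (∀ y, ‖fderiv ℝ g y‖ ≤ 1 / 100) ∧
        Free Ω u ∩ {x | C * δ < axDist i x ∧ ‖x‖ < 1 / C} =
          {x | (C * δ < axDist i x ∧ ‖x‖ < 1 / C) ∧ x 0 = g !₂[x 1, x 2]} := by
  obtain ⟨δ₀, ε, C, hδ₀, hδ₁, hε, hε2, hC, hmain⟩ := Pool.Agent.D0H33.FC.main_sol
  refine ⟨min δ₀ (1 / 2), ε, C, by positivity, lt_of_le_of_lt (min_le_left _ _) hδ₁, hε,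
    by linarith, ?_⟩
  intro i δ Ω u hi hδ hδle' hΩ1 hΩ2 hcl hP hZ hf1 hf2
  have hδle : δ ≤ δ₀ := hδle'.trans (min_le_left _ _)
  have hδ2 : δ ≤ 1 / 2 := hδle'.trans (min_le_right _ _)
  rcases hi with rfl | rfl
  · -- the axis is contained in the flat plane
    have hNx : ∀ x : EuclideanSpace ℝ (Fin 3), axDist 2 x = Pool.Agent.D0H33.FC.Nx x := by
      intro x
      unfold Pool.Agent.D0H33.FC.Nx Pool.Agent.D0H33.FC.ax
      rw [Pool.Agent.D0H33.FB.ee_inner]
      rfl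
    set D := Pool.Agent.D0H33.FC.ann δ 1 with hD
    have hDo : IsOpen D := Pool.Agent.D0H33.FC.ann_open δ 1
    have hDΩ : D ⊆ Ω := fun x hx => hΩ1 ⟨by rw [hNx]; exact hx.1, hx.2⟩
    have hDi : D ⊆ interior Ω := interior_maximal hDΩ hDo
    have hNN : Pool.Agent.D0H33.FB.NN D u = Pos Ω u ∩ D := by
      ext x
      constructor
      · rintro ⟨h1, h2⟩
        exact ⟨⟨hDΩ h1, h2⟩, h1⟩
      · rintro ⟨h1, h2⟩
        exact ⟨h2, h1.2⟩
    have hFF : Pool.Agent.D0H33.FB.FF D u = Free Ω u ∩ D := by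
      unfold Pool.Agent.D0H33.FB.FF Free
      rw [hNN, inter_comm D, frontier_inter_open_inter hDo]
      ext x
      constructor
      · rintro ⟨h1, h2⟩
        exact ⟨⟨hDΩ h2, h1⟩, h2⟩
      · rintro ⟨⟨-, h1⟩, h2⟩
        exact ⟨h1, h2⟩
    have hharm : ∀ x ∈ Pool.Agent.D0H33.FB.NN D u, InnerProductSpace.HarmonicAt u x := by
      intro x hx
      exact hcl.harm x ⟨⟨hDΩ hx.1, hx.2⟩, hDi hx.1⟩
    have hsol : Pool.Agent.D0H33.FB.Sol D u := by
      refine ⟨hDo, hcl.cont.mono hDΩ, fun x hx => hcl.nonneg x (hDΩ hx), ?_, ?_, ?_⟩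
      · intro x hx
        exact (hharm x hx).1.contDiffWithinAt
      · intro x hx
        have h1 := (hharm x hx).2.self_of_nhds
        rw [InnerProductSpace.laplacian_eq_iteratedFDeriv_orthonormalBasis u
          (EuclideanSpace.basisFun (Fin 3) ℝ)] at h1
        unfold ExtStar.lap
        have h2 : ∀ i : Fin 3, (fun _ : Fin 2 => EuclideanSpace.single i (1 : ℝ)) =
            ![EuclideanSpace.basisFun (Fin 3) ℝ i, EuclideanSpace.basisFun (Fin 3) ℝ i] := by
          intro i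
          funext j
          fin_cases j <;> simp
        simp only [h2]
        exact h1
      · intro p hp
        rw [hFF] at hp
        exact hcl.bdry p ⟨hp.1, hDi hp.2⟩
    have h0 : ∀ x ∈ Ω, Pool.Agent.D0H33.FC.Nx x ≠ 0 := by
      intro x hx h
      have := (hΩ2 hx).1
      rw [hNx, h] at this
      linarith
    have hcirc := Pool.Agent.D0H33.FC.circle_meets (X := Pos Ω u) (Y := Zer Ω u) hsol hδ (subset_refl _)
      (fun x h => h0 x h.1) (fun x h => h0 x h.1) (fun x hx h1 => ⟨hDΩ hx, h1⟩)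
      (fun x hx h1 => ⟨hDΩ hx, h1⟩) hP hZ
    obtain ⟨g, hg1, hg2, hg3⟩ := hmain δ D u hδ hδle hsol (subset_refl _) hcirc
      (by
        intro x hx h1
        exact ⟨hx, (hf1 ⟨hDΩ hx, h1⟩).2⟩)
      (by
        intro x hx h1 h2
        have h3 := (hf2 ⟨hDΩ hx, h1⟩).2
        have h4 := h2.2
        rw [h3] at h4
        exact lt_irrefl _ h4)
    refine ⟨g, hg1, hg2, ?_⟩
    have hpr : ∀ x : EuclideanSpace ℝ (Fin 3), Pool.Agent.D0H33.FC.pj x = !₂[x 1, x 2] := fun _ => rfl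
    have hA : ∀ x : EuclideanSpace ℝ (Fin 3), C * δ < Pool.Agent.D0H33.FC.Nx x → ‖x‖ < 1 / C → x ∈ D := by
      intro x h1 h2
      refine ⟨by nlinarith, lt_of_lt_of_le h2 ?_⟩
      rw [div_le_one (by linarith)]
      exact hC
    ext x
    constructor
    · rintro ⟨h1, h2, h3⟩
      refine ⟨⟨h2, h3⟩, ?_⟩
      rw [hNx] at h2
      have h4 : x ∈ Pool.Agent.D0H33.FB.FF D u := by
        rw [hFF]; exact ⟨h1, hA x h2 h3⟩
      rw [← hpr]
      exact (hg3 x h2 h3).1 h4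
    · rintro ⟨⟨h2, h3⟩, h1⟩
      rw [← hpr] at h1
      have h22 := h2
      rw [hNx] at h22
      have h4 := (hg3 x h22 h3).2 h1
      rw [hFF] at h4
      exact ⟨h4.1, h2, h3⟩
  · -- the axis is orthogonal to the flat plane: the phases cannot be contractible
    exfalso
    have hsq : ∀ x : EuclideanSpace ℝ (Fin 3), axDist 0 x ^ 2 = ‖Pool.Agent.D0H33.FC.pj x‖ ^ 2 := by
      intro x
      have e0 : (x - x 0 • EuclideanSpace.single (0 : Fin 3) (1 : ℝ)) 0 = 0 := by simp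
      have e1 : (x - x 0 • EuclideanSpace.single (0 : Fin 3) (1 : ℝ)) 1 = x 1 := by simp
      have e2 : (x - x 0 • EuclideanSpace.single (0 : Fin 3) (1 : ℝ)) 2 = x 2 := by simp
      have p0 : (Pool.Agent.D0H33.FC.pj x) 0 = x 1 := rfl
      have p1 : (Pool.Agent.D0H33.FC.pj x) 1 = x 2 := rfl
      unfold axDist
      rw [EuclideanSpace.norm_sq_eq, EuclideanSpace.norm_sq_eq, Fin.sum_univ_three,
        Fin.sum_univ_two, e0, e1, e2, p0, p1, norm_zero]
      ring
    have hax : ∀ x : EuclideanSpace ℝ (Fin 3), axDist 0 x = ‖Pool.Agent.D0H33.FC.pj x‖ := fun x =>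
      (sq_eq_sq₀ (norm_nonneg _) (norm_nonneg _)).1 (hsq x)
    refine Pool.Agent.D0H33.FC.no_first (X := Pos Ω u) ?_ ?_
    · intro x hx h
      have h1 := (hΩ2 hx.1).1
      rw [hax, h, norm_zero] at h1
      linarith
    · intro y hy
      apply hf1
      refine ⟨hΩ1 ⟨?_, ?_⟩, ?_⟩
      · rw [hax, Pool.Agent.D0H33.FC.pj_lj, hy]
        linarith
      · have h1 := Pool.Agent.D0H33.FC.lj_norm y (1 / 2)
        rw [hy] at h1
        by_contra hn
        push Not at hn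
        nlinarith
      · show ε < (Pool.Agent.D0H33.FC.lj y (1 / 2)) 0
        rw [Pool.Agent.D0H33.FC.lj_zero]
        exact hε2

end Pool.Agent.Results.MP_155f9b_an.CylGraph
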